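import Pool.Agent.H492.UB.Stm3

/-!
# The counting argument modulo three (adapted from `SCountPf`)
-/

set_option autoImplicit false

namespace Pool.Agent.H492.UB

open MvPolynomial

namespace T3count

theorem sh_map {α β : Type} (g : α → β) (a b : List α) :
    sh (a.map g) (b.map g) = (sh a b).map (List.map g) := by
  induction a generalizing b with
  | nil => simp
  | cons x a iha =>
    induction b with
    | nil => simp
    | cons y b ihb =>
      have h1 : sh (g x :: a.map g) (b.map g) = (sh (x :: a) b).map (List.map g) := ihb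
      have h2 : sh (a.map g) (g y :: b.map g) = (sh a (y :: b)).map (List.map g) := iha (y :: b)
      rw [List.map_cons, List.map_cons, sh_cons_cons, sh_cons_cons, List.map_append, h1, h2]
      simp [Function.comp_def]

theorem ps_map {V S : Type} [Add V] [Add S] (g : V → S) (hg : ∀ a b, g (a + b) = g a + g b)
    (s : V) (w : List V) : (ps s w).map g = ps (g s) (w.map g) := by
  induction w generalizing s with
  | nil => simp
  | cons x w ih => rw [ps_cons, List.map_cons, List.map_cons, ps_cons, ih, hg]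

theorem lin_add (u v : V3) : lin3 (u + v) = lin3 u + lin3 v := by
  unfold lin3
  rw [← Finset.sum_add_distrib]
  refine Finset.sum_congr rfl fun i _ => ?_
  rw [Pi.add_apply, C_add, add_mul]

theorem lin_neg (u : V3) : lin3 (-u) = -lin3 u := by
  unfold lin3
  rw [← Finset.sum_neg_distrib]
  refine Finset.sum_congr rfl fun i _ => ?_
  rw [Pi.neg_apply, C_neg, neg_mul]

theorem lin_zero : lin3 (0 : V3) = 0 := by
  unfold lin3
  refine Finset.sum_eq_zero fun i _ => ?_
  rw [Pi.zero_apply, C_0, zero_mul]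

theorem getD_lin (l : List V3) (n : ℕ) :
    (l.map lin3).getD n (0 : MvPolynomial (Fin 4) (ZMod 3)) = lin3 (l.getD n 0) := by
  have h := List.getD_map (l := l) (d := (0 : V3)) (n := n) (f := lin3)
  rw [lin_zero] at h
  exact h

theorem getD_neg (l : List V3) (n : ℕ) :
    (l.map (fun x => -x)).getD n (0 : V3) = -(l.getD n 0) := by
  have h := List.getD_map (l := l) (d := (0 : V3)) (n := n) (f := fun x => -x)
  simp only [neg_zero] at h
  exact h

theorem lin_hom (v : V3) : (lin3 v).IsHomogeneous 1 := by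
  unfold lin3
  refine IsHomogeneous.sum _ _ _ fun i _ => ?_
  simpa using (isHomogeneous_C (Fin 4) (v i)).mul (isHomogeneous_X (ZMod 3) i)

/-- even polynomials -/
theorem aeval_neg {S : Type} [CommRing S] [Algebra (ZMod 3) S] {e : ℕ} (he : Even e)
    (g : MvPolynomial (Fin 4) (ZMod 3)) (hg : g.IsHomogeneous e) (x : Fin 4 → S) :
    aeval (fun i => -x i) g = aeval x g := by
  rw [aeval_def, aeval_def, eval₂_eq', eval₂_eq']
  refine Finset.sum_congr rfl fun d hd => ?_
  congr 1
  have h1 : ∏ i, (-x i) ^ d i = (∏ i, (-1 : S) ^ d i) * ∏ i, x i ^ d i := by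
    rw [← Finset.prod_mul_distrib]
    refine Finset.prod_congr rfl fun i _ => ?_
    rw [← mul_pow, neg_one_mul]
  have h2 : ∑ i, d i = e := by
    have h3 := hg (mem_support_iff.1 hd)
    rw [Finsupp.weight_apply, Finsupp.sum_fintype] at h3
    · simpa using h3
    · intro i
      simp
  rw [h1, Finset.prod_pow_eq_pow_sum, h2, he.neg_one_pow, one_mul]

/-- the value of the function attached to a family of polynomials -/
noncomputable def HL {e : ℕ} (p : BasN → MvPolynomial (Fin 4) (ZMod 3)) (l : List V3) :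
    (BasN → W (ZMod 3) 4 e) →ₗ[ZMod 3] MvPolynomial (Fin 4) (ZMod 3) :=
  ∑ j, (LinearMap.mulLeft (ZMod 3) (p j)) ∘ₗ
    (aeval (R := ZMod 3) (fun i : Fin 4 => (l.map lin3).getD i 0)).toLinearMap ∘ₗ
      (W (ZMod 3) 4 e).subtype ∘ₗ LinearMap.proj j

theorem HL_apply {e : ℕ} (p : BasN → MvPolynomial (Fin 4) (ZMod 3)) (l : List V3)
    (f : BasN → W (ZMod 3) 4 e) :
    HL p l f = ∑ j, p j * ev (f j : MvPolynomial (Fin 4) (ZMod 3)) (l.map lin3) := by
  unfold HL ev
  simp [LinearMap.sum_apply]

theorem list_sum {X ι R : Type} [Fintype ι] [CommRing R] (p : ι → R) (g : ι → X → R)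
    (L : List X) : (L.map fun w => ∑ j, p j * g j w).sum = ∑ j, p j * (L.map (g j)).sum := by
  induction L with
  | nil => simp
  | cons x L ih => simp [ih, mul_add, Finset.sum_add_distrib]

theorem BA_HL {e : ℕ} (p : BasN → MvPolynomial (Fin 4) (ZMod 3))
    (f : BasN → W (ZMod 3) 4 e) : BA 4 (fun l : List V3 => HL p l f) := by
  refine ⟨fun a b ha hb hab => ?_, fun a b ha hb hab => ?_⟩
  · simp only [HL_apply]
    rw [list_sum p (fun j (w : List V3) =>
      ev (f j : MvPolynomial (Fin 4) (ZMod 3)) (w.reverse.map lin3))]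
    refine Finset.sum_eq_zero fun j _ => ?_
    have h := (f j).2.2.1 (a.map lin3) (b.map lin3) (by simpa using ha) (by simpa using hb)
      (by simpa using hab)
    rw [sh_map, List.map_map] at h
    have h2 : ((fun w : List (MvPolynomial (Fin 4) (ZMod 3)) =>
        ev (f j : MvPolynomial (Fin 4) (ZMod 3)) w.reverse) ∘ List.map lin3) =
        fun w : List V3 => ev (f j : MvPolynomial (Fin 4) (ZMod 3)) (w.reverse.map lin3) := by
      funext w
      simp only [Function.comp_apply, List.map_reverse]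
    rw [h2] at h
    rw [h, mul_zero]
  · simp only [HL_apply]
    rw [list_sum p (fun j (w : List V3) =>
      ev (f j : MvPolynomial (Fin 4) (ZMod 3)) ((ps 0 w).map lin3))]
    refine Finset.sum_eq_zero fun j _ => ?_
    have h := (f j).2.2.2 (a.map lin3) (b.map lin3) (by simpa using ha) (by simpa using hb)
      (by simpa using hab)
    rw [sh_map, List.map_map] at h
    have h2 : ((fun w : List (MvPolynomial (Fin 4) (ZMod 3)) =>
        ev (f j : MvPolynomial (Fin 4) (ZMod 3)) (ps 0 w)) ∘ List.map lin3) =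
        fun w : List V3 => ev (f j : MvPolynomial (Fin 4) (ZMod 3)) ((ps 0 w).map lin3) := by
      funext w
      simp only [Function.comp_apply]
      rw [ps_map lin3 lin_add, lin_zero]
    rw [h2] at h
    rw [h, mul_zero]

theorem HL_hom {e κ : ℕ} (p : BasN → MvPolynomial (Fin 4) (ZMod 3))
    (hp : ∀ j, (p j).IsHomogeneous κ) (f : BasN → W (ZMod 3) 4 e) (l : List V3) :
    (HL p l f).IsHomogeneous (e + κ) := by
  rw [HL_apply]
  refine IsHomogeneous.sum _ _ _ fun j _ => ?_
  have h1 : (ev (f j : MvPolynomial (Fin 4) (ZMod 3)) (l.map lin3)).IsHomogeneous (1 * e) := by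
    unfold ev
    refine (f j).2.1.aeval _ fun i => ?_
    rw [getD_lin]
    exact lin_hom _
  rw [one_mul] at h1
  rw [add_comm]
  exact (hp j).mul h1

theorem HL_neg {e : ℕ} (he : Even e) (p : BasN → MvPolynomial (Fin 4) (ZMod 3))
    (f : BasN → W (ZMod 3) 4 e) (w : List V3) : HL p (w.map (fun x => -x)) f = HL p w f := by
  rw [HL_apply, HL_apply]
  refine Finset.sum_congr rfl fun j _ => ?_
  congr 1
  unfold ev
  rw [← aeval_neg he _ (f j).2.1]
  congr 1
  congr 1
  funext i
  rw [getD_lin, getD_lin, getD_neg, lin_neg, neg_neg]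

/-- the functionals -/
noncomputable def FL {e : ℕ} (p : BasN → MvPolynomial (Fin 4) (ZMod 3))
    (L : List (ZMod 3 × List V3)) :
    (BasN → W (ZMod 3) 4 e) →ₗ[ZMod 3] MvPolynomial (Fin 4) (ZMod 3) :=
  (L.map fun t => t.1 • HL p t.2).sum

theorem FL_apply {e : ℕ} (p : BasN → MvPolynomial (Fin 4) (ZMod 3))
    (L : List (ZMod 3 × List V3)) (f : BasN → W (ZMod 3) 4 e) :
    FL p L f = (L.map fun t => t.1 • HL p t.2 f).sum := by
  unfold FL
  induction L with
  | nil => simp
  | cons t L ih =>
    rw [List.map_cons, List.sum_cons, LinearMap.add_apply, ih, LinearMap.smul_apply,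
      List.map_cons, List.sum_cons]

theorem FL_hom {e κ : ℕ} (p : BasN → MvPolynomial (Fin 4) (ZMod 3))
    (hp : ∀ j, (p j).IsHomogeneous κ) (f : BasN → W (ZMod 3) 4 e)
    (L : List (ZMod 3 × List V3)) :
    FL p L f ∈ homogeneousSubmodule (Fin 4) (ZMod 3) (e + κ) := by
  rw [FL_apply]
  refine list_sum_mem fun x hx => ?_
  obtain ⟨t, _, rfl⟩ := List.mem_map.1 hx
  exact Submodule.smul_mem _ _ (HL_hom p hp f t.2)

theorem phi_lin (h : Fin 4 → V3) (u : V3) :
    aeval (R := ZMod 3) (fun i => lin3 (h i)) (lin3 u) = lin3 (∑ k, u k • h k) := by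
  have h1 : ∀ (s : Finset (Fin 4)), lin3 (∑ k ∈ s, u k • h k) =
      ∑ k ∈ s, C (u k) * lin3 (h k) := by
    intro s
    classical
    induction s using Finset.induction_on with
    | empty => simp [lin_zero]
    | insert k s hk ih =>
      rw [Finset.sum_insert hk, Finset.sum_insert hk, lin_add, ih]
      congr 1
      unfold lin3
      rw [Finset.mul_sum]
      refine Finset.sum_congr rfl fun i _ => ?_
      rw [Pi.smul_apply, smul_eq_mul, C_mul, mul_assoc]
  rw [h1]
  conv_lhs => unfold lin3
  rw [map_sum]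
  refine Finset.sum_congr rfl fun i _ => ?_
  rw [map_mul, aeval_X]
  congr 1
  rw [← algebraMap_eq, AlgHom.commutes]

theorem lin_single (i : Fin 4) : lin3 (Pi.single i (1 : ZMod 3)) = X i := by
  unfold lin3
  rw [Finset.sum_eq_single i]
  · simp
  · intro j _ hj
    rw [Pi.single_eq_of_ne hj]
    simp
  · intro h
    exact absurd (Finset.mem_univ i) h

/-- the inverse basis -/
theorem exists_inv (h : Fin 4 → V3) (hh : LinearIndependent (ZMod 3) h) :
    ∃ w : Fin 4 → V3, LinearIndependent (ZMod 3) w ∧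
      ∀ i, ∑ k, w i k • h k = Pi.single i 1 := by
  have hA : IsUnit (Matrix.of h : Matrix (Fin 4) (Fin 4) (ZMod 3)) :=
    Matrix.linearIndependent_rows_iff_isUnit.mp hh
  have hdet : IsUnit (Matrix.of h : Matrix (Fin 4) (Fin 4) (ZMod 3)).det :=
    (Matrix.isUnit_iff_isUnit_det _).mp hA
  have hB : IsUnit (Matrix.of h : Matrix (Fin 4) (Fin 4) (ZMod 3))⁻¹ := by
    rw [Matrix.isUnit_iff_isUnit_det]
    exact Matrix.isUnit_nonsing_inv_det _ hdet
  refine ⟨fun i => ((Matrix.of h : Matrix (Fin 4) (Fin 4) (ZMod 3))⁻¹) i,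
    Matrix.linearIndependent_rows_iff_isUnit.mpr hB, fun i => ?_⟩
  have h1 := Matrix.nonsing_inv_mul (Matrix.of h : Matrix (Fin 4) (Fin 4) (ZMod 3)) hdet
  funext j
  have h2 := congrFun (congrFun h1 i) j
  rw [Matrix.mul_apply] at h2
  rw [Finset.sum_apply]
  simp only [Pi.smul_apply, smul_eq_mul]
  refine h2.trans ?_
  rw [Matrix.one_apply, Pi.single_apply]
  simp only [eq_comm]

end T3count

open T3count in
theorem sCount3 : SCount3 := by
  intro κ D hSep hSpan hDim e he
  obtain ⟨p, hp, hsep⟩ := hSep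
  obtain ⟨Φ, _, φ, hΦ, _, hspan⟩ := hSpan
  have hfin : ∀ n, Module.Finite (ZMod 3) (homogeneousSubmodule (Fin 4) (ZMod 3) n) := by
    intro n
    apply Module.finite_of_finrank_pos
    rw [hDim (ZMod 3) 4 n (by norm_num)]
    exact Nat.choose_pos (by omega)
  have := hfin (e + κ)
  have := hfin e
  have hWle : W (ZMod 3) 4 e ≤ homogeneousSubmodule (Fin 4) (ZMod 3) e := fun f hf => hf.1
  have : Module.Finite (ZMod 3) (W (ZMod 3) 4 e) := Submodule.finiteDimensional_of_le hWle
  let Psi : (BasN → W (ZMod 3) 4 e) →ₗ[ZMod 3]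
      (Φ → homogeneousSubmodule (Fin 4) (ZMod 3) (e + κ)) :=
    LinearMap.pi fun i => LinearMap.codRestrict _ (FL p (φ i))
      (fun f => FL_hom p hp f _)
  have hinj : Function.Injective Psi := by
    rw [← LinearMap.ker_eq_bot, LinearMap.ker_eq_bot']
    intro f hf
    have h1 : ∀ i, ((φ i).map fun t => t.1 • HL p t.2 f).sum = 0 := by
      intro i
      have h2 := congrFun hf i
      rw [← FL_apply]
      exact congrArg Subtype.val h2
    have h3 : ∀ w : Fin 4 → V3, LinearIndependent (ZMod 3) w → HL p (List.ofFn w) f = 0 :=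
      hspan (MvPolynomial (Fin 4) (ZMod 3)) (fun l => HL p l f) (BA_HL p f)
        (fun w => HL_neg he p f w) h1
    have h4 : (fun j => (f j : MvPolynomial (Fin 4) (ZMod 3))) = 0 := by
      apply hsep
      intro h
      obtain ⟨w, hwl, hw⟩ := exists_inv h.1 h.2.1
      have h5 := congrArg (aeval (R := ZMod 3) (fun i => lin3 (h.1 i))) (h3 w hwl)
      rw [HL_apply, map_sum, map_zero] at h5
      rw [← h5]
      refine Finset.sum_congr rfl fun j _ => ?_
      rw [map_mul, mul_comm]
      congr 1
      unfold ev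
      have h6 : (fun i : Fin 4 => ((List.ofFn w).map lin3).getD (i : ℕ)
          (0 : MvPolynomial (Fin 4) (ZMod 3))) = fun i => lin3 (w i) := by
        funext i
        rw [getD_lin]
        congr 1
        fin_cases i <;> rfl
      rw [h6, ← AlgHom.comp_apply, comp_aeval]
      have h8 : (fun i => aeval (R := ZMod 3) (fun i => lin3 (h.1 i)) (lin3 (w i))) =
          (X : Fin 4 → MvPolynomial (Fin 4) (ZMod 3)) := by
        funext i
        rw [phi_lin, hw, lin_single]
      rw [h8, aeval_X_left, AlgHom.id_apply]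
    funext j
    have := congrFun h4 j
    exact Subtype.ext this
  have hle := LinearMap.finrank_le_finrank_of_injective hinj
  rw [Module.finrank_pi_fintype, Module.finrank_pi_fintype, Finset.sum_const, Finset.sum_const,
    hDim (ZMod 3) 4 (e + κ) (by norm_num), smul_eq_mul, smul_eq_mul, Finset.card_univ,
    Finset.card_univ, hΦ] at hle
  exact hle

end Pool.Agent.H492.UB
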